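import Mathlib
import Pool.Agent.W192.CM.Parts

/-!
# The theta relation
-/

set_option autoImplicit false

open Complex Filter Topology Set Pool.Agent.W192.CM

namespace Pool.Agent.W803.CM

variable {R : Subring ℂ} {φ κ : R}

/-- representatives of the residue classes modulo `φ κ` -/
noncomputable def rp (φ κ : R) (p : Aq R φ × Aq R κ) : R :=
  (Quotient.out p.1 : R) * κ + (Quotient.out p.2 : R) * φ

/-- decomposition of `R` -/
noncomputable def em (φ κ : R) (p : (Aq R φ × Aq R κ) × R) : R := φ * κ * p.2 + rp φ κ p.1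

theorem mko {κ : R} (x : Aq R κ) :
    Ideal.Quotient.mk (Ideal.span {κ}) (Quotient.out x : R) = x := Ideal.Quotient.mk_out x

theorem out_mk (κ : R) (a : R) :
    ∃ s : R, (Quotient.out (Ideal.Quotient.mk (Ideal.span {κ}) a : Aq R κ) : R) = a + κ * s := by
  have h := mko (Ideal.Quotient.mk (Ideal.span {κ}) a : Aq R κ)
  rw [Ideal.Quotient.eq, Ideal.mem_span_singleton] at h
  obtain ⟨s, hs⟩ := h
  exact ⟨s, by rw [← hs]; ring⟩

theorem em_bij (hφ : φ ≠ 0) (hκ : κ ≠ 0) (h : IsCoprime φ κ) : Function.Bijective (em φ κ) := by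
  have key : ∀ (κ : R) (x x' : Aq R κ), κ ∣ (Quotient.out x : R) - (Quotient.out x' : R) →
      x = x' := by
    intro κ x x' hd
    rw [← mko x, ← mko x', Ideal.Quotient.eq, Ideal.mem_span_singleton]
    exact hd
  constructor
  · rintro ⟨⟨x, y⟩, c⟩ ⟨⟨x', y'⟩, c'⟩ he
    simp only [em, rp] at he
    have hx : x = x' := by
      refine key φ x x' (h.dvd_of_dvd_mul_right ?_)
      refine ⟨κ * (c' - c) + ((Quotient.out y' : R) - (Quotient.out y : R)), ?_⟩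
      linear_combination he
    have hy : y = y' := by
      refine key κ y y' (h.symm.dvd_of_dvd_mul_right ?_)
      refine ⟨φ * (c' - c) + ((Quotient.out x' : R) - (Quotient.out x : R)), ?_⟩
      linear_combination he
    subst hx hy
    have hc : φ * κ * c = φ * κ * c' := by linear_combination he
    rw [mul_left_cancel₀ (mul_ne_zero hφ hκ) hc]
  · intro α
    obtain ⟨u, v, huv⟩ := h
    obtain ⟨s, hs⟩ := out_mk φ (α * v)
    obtain ⟨r, hr⟩ := out_mk κ (α * u)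
    refine ⟨((Ideal.Quotient.mk _ (α * v), Ideal.Quotient.mk _ (α * u)), -(s + r)), ?_⟩
    simp only [em, rp]
    rw [hs, hr]
    linear_combination α * huv

theorem ev_e (ε : MulChar (Aq R φ) ℂ) (p : (Aq R φ × Aq R κ) × R) :
    ev ε (em φ κ p) = ε p.1.1 * ev ε κ := by
  unfold ev em rp
  rw [← map_mul ε]
  congr 1
  rw [map_add, map_add, map_mul, map_mul, map_mul, map_mul, mko]
  have h0 : Ideal.Quotient.mk (Ideal.span {φ}) φ = 0 := by
    rw [Ideal.Quotient.eq_zero_iff_mem]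
    exact Ideal.mem_span_singleton_self φ
  rw [h0]
  ring

theorem ev_x (χ : MulChar (Aq R κ) ℂ) (p : (Aq R φ × Aq R κ) × R) :
    ev χ (em φ κ p) = χ p.1.2 * ev χ φ := by
  unfold ev em rp
  rw [← map_mul χ]
  congr 1
  rw [map_add, map_add, map_mul, map_mul, map_mul, map_mul, mko]
  have h0 : Ideal.Quotient.mk (Ideal.span {κ}) κ = 0 := by
    rw [Ideal.Quotient.eq_zero_iff_mem]
    exact Ideal.mem_span_singleton_self κ
  rw [h0]
  ring

theorem ez_add (ω z w : ℂ) : ez ω (z + w) = ez ω z * ez ω w := by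
  unfold ez
  rw [← Complex.exp_add]
  congr 1
  rw [Complex.add_im]
  push_cast
  ring

theorem norm_ez (ω z : ℂ) : ‖ez ω z‖ = 1 := by
  unfold ez
  rw [show 2 * (Real.pi : ℂ) * Complex.I * ((z.im / ω.im : ℝ) : ℂ) =
    ((2 * Real.pi * (z.im / ω.im) : ℝ) : ℂ) * Complex.I by push_cast; ring]
  exact Complex.norm_exp_ofReal_mul_I _

theorem norm_ev {κ a : R} [Finite (Aq R κ)] (χ : MulChar (Aq R κ) ℂ) (h : IsCoprime a κ) :
    ‖ev χ a‖ = 1 := by
  obtain ⟨u, v, huv⟩ := h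
  have hu : IsUnit (Ideal.Quotient.mk (Ideal.span {κ}) a : Aq R κ) := by
    refine IsUnit.of_mul_eq_one (Ideal.Quotient.mk (Ideal.span {κ}) u) ?_
    rw [← map_mul, ← map_one (Ideal.Quotient.mk (Ideal.span {κ})), Ideal.Quotient.eq,
      Ideal.mem_span_singleton]
    exact ⟨-v, by linear_combination huv⟩
  obtain ⟨w, hw⟩ := hu
  have hc : Nat.card (Aq R κ)ˣ ≠ 0 := Nat.card_pos.ne'
  refine Complex.norm_eq_one_of_pow_eq_one (n := Nat.card (Aq R κ)ˣ) ?_ hc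
  unfold ev
  rw [← hw, ← map_pow, ← Units.val_pow_eq_pow_val, pow_card_eq_one', Units.val_one, map_one]

theorem summ_theta (h3 : C_POIS) {ω : ℂ} (hR : CMRing R ω) (c : ℝ) (hc : 0 < c) (t : ℝ)
    (ht : 0 < t) :
    Summable (fun α : R => ‖(α : ℂ)‖ * Real.exp (-(2 * Real.pi * Complex.normSq (α : ℂ) * t /
      (2 * ω.im * c)))) := by
  have h := (h3 R ω hR 0 (c / t) (div_pos hc ht)).2.1
  rw [← summable_norm_iff] at h
  refine h.congr fun α => ?_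
  rw [norm_mul, norm_mul, norm_ez, RCLike.norm_conj, mul_one, Complex.norm_real, Real.norm_eq_abs,
    abs_of_pos (Real.exp_pos _)]
  congr 3
  have h0 := hR.im.ne'
  have h1 := hc.ne'
  have h2 := ht.ne'
  field_simp

theorem inner_eq (h3 : C_POIS) {ω : ℂ} (hR : CMRing R ω) (hφ : φ ≠ 0) (hκ : κ ≠ 0)
    (ε : MulChar (Aq R φ) ℂ) (χ : MulChar (Aq R κ) ℂ) (t : ℝ) (ht : 0 < t)
    (p : Aq R φ × Aq R κ) :
    Summable (fun β : R => (starRingEnd ℂ) (β : ℂ) *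
        (ez ω (((Quotient.out p.1 : R) : ℂ) * (β : ℂ) / (φ : ℂ)) *
          ez ω (((Quotient.out p.2 : R) : ℂ) * (β : ℂ) / (κ : ℂ))) *
        (Real.exp (-(2 * Real.pi * Complex.normSq (β : ℂ) /
          (2 * ω.im * ‖(φ : ℂ) * (κ : ℂ)‖)) * t) : ℂ)) ∧
    ∑' c : R, ev ε (em φ κ (p, c)) * ev χ (em φ κ (p, c)) * ((em φ κ (p, c) : R) : ℂ) *
      (Real.exp (-(2 * Real.pi * Complex.normSq ((em φ κ (p, c) : R) : ℂ) /
        (2 * ω.im * ‖(φ : ℂ) * (κ : ℂ)‖)) / t) : ℂ) =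
      (ε p.1 * ev ε κ * (χ p.2 * ev χ φ)) * ((φ : ℂ) * (κ : ℂ) * ((t : ℂ) ^ 2 /
        (Complex.normSq ((φ : ℂ) * (κ : ℂ)) : ℂ))) *
      ∑' β : R, (starRingEnd ℂ) (β : ℂ) *
        (ez ω (((Quotient.out p.1 : R) : ℂ) * (β : ℂ) / (φ : ℂ)) *
          ez ω (((Quotient.out p.2 : R) : ℂ) * (β : ℂ) / (κ : ℂ))) *
        (Real.exp (-(2 * Real.pi * Complex.normSq (β : ℂ) /
          (2 * ω.im * ‖(φ : ℂ) * (κ : ℂ)‖)) * t) : ℂ) := by
  have hφ' : (φ : ℂ) ≠ 0 := by simpa using hφ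
  have hκ' : (κ : ℂ) ≠ 0 := by simpa using hκ
  have hm0 : (φ : ℂ) * (κ : ℂ) ≠ 0 := mul_ne_zero hφ' hκ'
  set μ : ℂ := (φ : ℂ) * (κ : ℂ) with hμ
  have hm : 0 < ‖μ‖ := norm_pos_iff.2 hm0
  have hT : 0 < ‖μ‖ / t := div_pos hm ht
  set z0 : ℂ := ((rp φ κ p : R) : ℂ) / μ with hz0
  obtain ⟨_, hs2, hs3⟩ := h3 R ω hR z0 (‖μ‖ / t) hT
  have hi := hR.im.ne'
  have hm' := hm.ne'
  have ht' := ht.ne'
  have hez : ∀ β : R, ez ω (z0 * (β : ℂ)) =
      ez ω (((Quotient.out p.1 : R) : ℂ) * (β : ℂ) / (φ : ℂ)) *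
        ez ω (((Quotient.out p.2 : R) : ℂ) * (β : ℂ) / (κ : ℂ)) := by
    intro β
    rw [← ez_add]
    congr 1
    rw [hz0, hμ]
    unfold rp
    push_cast
    field_simp
  have hex : ∀ β : R, (Real.exp (-(2 * Real.pi * Complex.normSq (β : ℂ) /
      (2 * ω.im * (‖μ‖ / t)))) : ℂ) =
      (Real.exp (-(2 * Real.pi * Complex.normSq (β : ℂ) / (2 * ω.im * ‖μ‖)) * t) : ℂ) := by
    intro β
    congr 2
    field_simp
  have hfun : (fun β : R => ((starRingEnd ℂ) (β : ℂ)) * ez ω (z0 * (β : ℂ)) *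
      (Real.exp (-(2 * Real.pi * Complex.normSq (β : ℂ) / (2 * ω.im * (‖μ‖ / t)))) : ℂ)) =
      fun β : R => (starRingEnd ℂ) (β : ℂ) *
        (ez ω (((Quotient.out p.1 : R) : ℂ) * (β : ℂ) / (φ : ℂ)) *
          ez ω (((Quotient.out p.2 : R) : ℂ) * (β : ℂ) / (κ : ℂ))) *
        (Real.exp (-(2 * Real.pi * Complex.normSq (β : ℂ) / (2 * ω.im * ‖μ‖)) * t) : ℂ) := by
    funext β
    rw [hez, hex]
  rw [hfun] at hs2 hs3
  refine ⟨hs2, ?_⟩
  have hL : ∀ c : R, ev ε (em φ κ (p, c)) * ev χ (em φ κ (p, c)) * ((em φ κ (p, c) : R) : ℂ) *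
      (Real.exp (-(2 * Real.pi * Complex.normSq ((em φ κ (p, c) : R) : ℂ) /
        (2 * ω.im * ‖μ‖)) / t) : ℂ) =
      (ε p.1 * ev ε κ * (χ p.2 * ev χ φ) * μ) * (((c : ℂ) + z0) *
        (Real.exp (-(2 * Real.pi * (‖μ‖ / t) * Complex.normSq ((c : ℂ) + z0) /
          (2 * ω.im))) : ℂ)) := by
    intro c
    have h1 : ((em φ κ (p, c) : R) : ℂ) = μ * ((c : ℂ) + z0) := by
      unfold em
      push_cast
      rw [hz0, mul_add, mul_div_cancel₀ _ hm0]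
    rw [ev_e, ev_x, h1, Complex.normSq_mul]
    have h2 : Complex.normSq μ = ‖μ‖ ^ 2 := Complex.normSq_eq_norm_sq μ
    have h3' : -(2 * Real.pi * (Complex.normSq μ * Complex.normSq ((c : ℂ) + z0)) /
        (2 * ω.im * ‖μ‖)) / t = -(2 * Real.pi * (‖μ‖ / t) * Complex.normSq ((c : ℂ) + z0) /
          (2 * ω.im)) := by
      rw [h2]
      field_simp
    rw [h3']
    ring
  simp only [hL]
  rw [tsum_mul_left, hs3]
  have h2 : (Complex.normSq μ : ℂ) = (‖μ‖ : ℂ) ^ 2 := by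
    rw [Complex.normSq_eq_norm_sq]; push_cast; rfl
  have h4 : (‖μ‖ : ℂ) ≠ 0 := by exact_mod_cast hm'
  have h5 : (t : ℂ) ≠ 0 := by exact_mod_cast ht'
  rw [h2, ← mul_assoc]
  congr 1
  push_cast
  field_simp

theorem alg (e x p k t N K b X ge gx ce cx : ℂ) (hN : N ≠ 0) (hK : K ≠ 0) :
    (e * x * (p * k * (t ^ 2 / (N * K * K))) * (b * X)) * ((ce * ge) * (cx * gx)) =
      ((p * ge / N) * (e * k / K) * (x * gx / K)) * t ^ 2 * (ce * cx * b * X) := by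
  field_simp

theorem c_theta (_h1 : C_BASIC) (h2 : C_GAUSS) (h3 : C_POIS) : C_THETA := by
  intro R ω hR φ κ _ _ ε χ hd
  have hφ' : (φ : ℂ) ≠ 0 := by simpa using hd.ne
  have hκ' : (κ : ℂ) ≠ 0 := by simpa using hd.ne'
  have hm0 : (φ : ℂ) * (κ : ℂ) ≠ 0 := mul_ne_zero hφ' hκ'
  have hm : 0 < ‖(φ : ℂ) * (κ : ℂ)‖ := norm_pos_iff.2 hm0
  obtain ⟨g1, g2⟩ := h2 R ω hR φ hd.ne ε hd.prim
  obtain ⟨g3, g4⟩ := h2 R ω hR κ hd.ne' χ hd.prim'
  refine ⟨?_, fun t ht => ⟨summ_theta h3 hR _ hm t ht, ?_⟩⟩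
  · unfold Wc
    have e1 : ‖ev ε κ‖ = 1 := norm_ev ε hd.cop.symm
    have e2 : ‖ev χ φ‖ = 1 := norm_ev χ hd.cop
    have a1 : ‖(φ : ℂ)‖ ≠ 0 := norm_ne_zero_iff.2 hφ'
    have a2 : ‖(κ : ℂ)‖ ≠ 0 := norm_ne_zero_iff.2 hκ'
    rw [norm_mul, norm_mul, norm_div, norm_div, norm_div, norm_mul, norm_mul, norm_mul, g1, g3,
      e1, e2, Complex.norm_real, Complex.norm_real, Real.norm_eq_abs, Real.norm_eq_abs,
      abs_of_nonneg (Complex.normSq_nonneg _), abs_of_nonneg (norm_nonneg _),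
      Complex.normSq_eq_norm_sq]
    field_simp
  · have : Fintype (Aq R φ) := Fintype.ofFinite _
    have : Fintype (Aq R κ) := Fintype.ofFinite _
    -- summability of the left side
    have hsum : Summable (fun α : R => ev ε α * ev χ α * (α : ℂ) *
        (Real.exp (-(2 * Real.pi * Complex.normSq (α : ℂ) /
          (2 * ω.im * ‖(φ : ℂ) * (κ : ℂ)‖)) / t) : ℂ)) := by
      have hs := summ_theta (R := R) h3 hR _ hm (1 / t) (by positivity)
      obtain ⟨B1, hB1⟩ : ∃ B, ∀ x : Aq R φ, ‖ε x‖ ≤ B :=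
        ⟨∑ x, ‖ε x‖, fun x => Finset.single_le_sum (f := fun x => ‖ε x‖)
          (fun _ _ => norm_nonneg _) (Finset.mem_univ x)⟩
      obtain ⟨B2, hB2⟩ : ∃ B, ∀ x : Aq R κ, ‖χ x‖ ≤ B :=
        ⟨∑ x, ‖χ x‖, fun x => Finset.single_le_sum (f := fun x => ‖χ x‖)
          (fun _ _ => norm_nonneg _) (Finset.mem_univ x)⟩
      refine Summable.of_norm_bounded (hs.mul_left (B1 * B2)) fun α => ?_
      rw [norm_mul, norm_mul, norm_mul, Complex.norm_real, Real.norm_eq_abs,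
        abs_of_pos (Real.exp_pos _)]
      have hexp : -(2 * Real.pi * Complex.normSq (α : ℂ) /
          (2 * ω.im * ‖(φ : ℂ) * (κ : ℂ)‖)) / t =
          -(2 * Real.pi * Complex.normSq (α : ℂ) * (1 / t) /
            (2 * ω.im * ‖(φ : ℂ) * (κ : ℂ)‖)) := by ring
      rw [hexp, mul_assoc]
      refine mul_le_mul_of_nonneg_right ?_ (by positivity)
      exact mul_le_mul (hB1 _) (hB2 _) (norm_nonneg _) ((norm_nonneg _).trans (hB1 0))
    let E : (Aq R φ × Aq R κ) × R ≃ R := Equiv.ofBijective (em φ κ) (em_bij hd.ne hd.ne' hd.cop)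
    rw [← E.tsum_eq]
    have hsum' : Summable (fun p : (Aq R φ × Aq R κ) × R => ev ε (E p) * ev χ (E p) *
        ((E p : R) : ℂ) * (Real.exp (-(2 * Real.pi * Complex.normSq ((E p : R) : ℂ) /
          (2 * ω.im * ‖(φ : ℂ) * (κ : ℂ)‖)) / t) : ℂ)) := E.summable_iff.2 hsum
    rw [Summable.tsum_prod hsum', tsum_fintype]
    have hin : ∀ p : Aq R φ × Aq R κ, ∑' c : R, ev ε (E (p, c)) * ev χ (E (p, c)) *
        ((E (p, c) : R) : ℂ) * (Real.exp (-(2 * Real.pi * Complex.normSq ((E (p, c) : R) : ℂ) /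
        (2 * ω.im * ‖(φ : ℂ) * (κ : ℂ)‖)) / t) : ℂ) = _ :=
      fun p => (inner_eq h3 hR hd.ne hd.ne' ε χ t ht p).2
    rw [Finset.sum_congr rfl fun p _ => hin p]
    simp only [← tsum_mul_left]
    rw [← Summable.tsum_finsetSum fun p _ =>
      ((inner_eq h3 hR hd.ne hd.ne' ε χ t ht p).1.mul_left _)]
    refine tsum_congr fun β => ?_
    have q2 := g2 β
    have q4 := g4 β
    rw [finsum_eq_sum_of_fintype] at q2 q4
    have hcj : (starRingEnd ℂ) (ev ε β * ev χ β * (β : ℂ)) =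
        (starRingEnd ℂ) (ev ε β) * (starRingEnd ℂ) (ev χ β) * (starRingEnd ℂ) (β : ℂ) := by
      rw [map_mul, map_mul]
    rw [hcj]
    unfold Wc
    have hN : (Complex.normSq ((φ : ℂ) * (κ : ℂ)) : ℂ) =
        (Complex.normSq (φ : ℂ) : ℂ) * (‖(κ : ℂ)‖ : ℂ) * (‖(κ : ℂ)‖ : ℂ) := by
      rw [Complex.normSq_mul, Complex.normSq_eq_norm_sq (κ : ℂ)]
      push_cast
      ring
    have hN1 : (Complex.normSq (φ : ℂ) : ℂ) ≠ 0 := by
      exact_mod_cast (Complex.normSq_pos.2 hφ').ne'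
    have hN2 : (‖(κ : ℂ)‖ : ℂ) ≠ 0 := by exact_mod_cast (norm_pos_iff.2 hκ').ne'
    set X : ℂ := (Real.exp (-(2 * Real.pi * Complex.normSq (β : ℂ) /
          (2 * ω.im * ‖(φ : ℂ) * (κ : ℂ)‖)) * t) : ℂ) with hX
    calc ∑ p : Aq R φ × Aq R κ, (ε p.1 * ev ε κ * (χ p.2 * ev χ φ)) *
          ((φ : ℂ) * (κ : ℂ) * ((t : ℂ) ^ 2 / (Complex.normSq ((φ : ℂ) * (κ : ℂ)) : ℂ))) *
          ((starRingEnd ℂ) (β : ℂ) *
            (ez ω (((Quotient.out p.1 : R) : ℂ) * (β : ℂ) / (φ : ℂ)) *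
              ez ω (((Quotient.out p.2 : R) : ℂ) * (β : ℂ) / (κ : ℂ))) * X)
        = (ev ε κ * ev χ φ * ((φ : ℂ) * (κ : ℂ) * ((t : ℂ) ^ 2 /
            (Complex.normSq ((φ : ℂ) * (κ : ℂ)) : ℂ))) * ((starRingEnd ℂ) (β : ℂ) * X)) *
          ((∑ x : Aq R φ, ε x * ez ω (((Quotient.out x : R) : ℂ) * (β : ℂ) / (φ : ℂ))) *
            ∑ y : Aq R κ, χ y * ez ω (((Quotient.out y : R) : ℂ) * (β : ℂ) / (κ : ℂ))) := by
          rw [Finset.sum_mul_sum, ← Finset.univ_product_univ, Finset.sum_product, Finset.mul_sum]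
          refine Finset.sum_congr rfl fun x _ => ?_
          rw [Finset.mul_sum]
          refine Finset.sum_congr rfl fun y _ => ?_
          ring
      _ = _ := by
          rw [q2, q4, hN]
          exact alg _ _ _ _ _ _ _ _ _ _ _ _ _ hN1 hN2

end Pool.Agent.W803.CM
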